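import Pool.Agent.Helper74.UB.Goals2

/-!
# UB, packet P1: an event whose component does not block the second route
-/

set_option autoImplicit false

namespace Pool.Agent.Helper39.UB

open Finset Equiv Helper28.VF Pool.Agent.Helper74.UB
open scoped Classical

variable {D V E F : Type} [Fintype D] [Fintype V] [Fintype E] [Fintype F] {M : PM D V E F}

theorem ad_symm {u v : V} (h : Ad M u v) : Ad M v u := by
  obtain ⟨d, h1, h2⟩ := h
  refine ⟨M.α d, h2, ?_⟩
  unfold tg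
  rw [M.α_inv]
  exact h1

/-- A walk outside `O`. -/
theorem rch_walk {O : Finset V} (q : ℕ → V) (m : ℕ) (hw : ∀ i < m, Ad M (q i) (q (i + 1)))
    (ho : ∀ i, 1 ≤ i → i ≤ m → q i ∉ O) : Rch M O (q 0) (q m) := by
  induction m with
  | zero => exact Relation.ReflTransGen.refl
  | succ m ih =>
    refine Relation.ReflTransGen.tail
      (ih (fun i hi => hw i (by omega)) fun i h1 h2 => ho i h1 (by omega)) ?_
    exact ⟨hw m (by omega), ho (m + 1) (by omega) le_rfl⟩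

theorem p1 (hBdex : StmtBdex) (hHalf : StmtHalf) (hFire : StmtFireCon) (hEvt : StmtEvt)
    (hExit : StmtExit) (hTail : StmtTail) : StmtP1 := by
  intro D V E F _ _ _ _ M c v₀ A Q hF T X hC R₁ R₂ s O hs hO h1 h2
  have hOQ := hO.sub
  have hdisj : Disjoint O (A s) := Finset.disjoint_of_subset_left hOQ (hF.disj s s)
  have hout : ∀ u ∈ A s, u ∉ O := fun u hu h => Finset.disjoint_left.mp hdisj h hu
  obtain ⟨hfire1, hfire2⟩ := hFire D V E F M c v₀ A Q hF
  -- the dart at `z`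
  have hz := R₁.hz s hs
  obtain ⟨w, hzw, hwQ⟩ := hfire2 s _ hz
  obtain ⟨d, hd, hdz⟩ := hBdex D V E F M O (R₁.z s) w (R₁.p s 0) (hout _ hz) hzw
    (fun h => hwQ s (hOQ h)) (R₁.start s hs) h1
  -- the event
  obtain ⟨-, hn1, hpQ, -, -, hpA⟩ := hEvt D V E F M c v₀ A Q hF T X hC R₁ s s hs le_rfl hs.le
    (hOQ h1)
  have hp1A : R₁.p s 1 ∉ A s := R₁.out s hs 1 hn1
  have hp1 : ∀ k, 1 ≤ k → k ≤ R₁.n s → R₁.p s k ∉ O := fun k hk1 hk2 h => hpQ k hk1 hk2 (hOQ h)
  by_cases hR : Rch M O (R₁.z s) (R₁.p s 1)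
  · obtain ⟨i, hi1, hi2, hi3, -, e, he, hei⟩ := hExit D V E F M A Q T X hC R₁ s s O hs hs.le hOQ
      ⟨0, Nat.zero_le _, h1⟩
    have hi : i = 1 := by
      by_contra hne
      exact hp1 (i - 1) (by omega) (by omega) hi3
    subst hi
    refine hHalf D V E F M O (A s) hO.conn hO.ne d hd e he ?_ ?_ ?_
    · rw [hdz, hei]
      exact hR
    · rw [hdz]
      exact hz
    · rw [hei]
      exact hp1A
  · have hz' := R₂.hz s hs
    have hzz' : Rch M O (R₁.z s) (R₂.z s) := hfire1 O s hdisj _ hz _ hz'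
    have hq0 : Rch M O (R₁.z s) (R₂.p s 0) :=
      Relation.ReflTransGen.tail hzz' ⟨R₂.start s hs, h2⟩
    have hex : ∃ i, i ≤ R₂.n s ∧ R₂.p s i ∈ O := by
      by_contra hno
      push Not at hno
      apply hR
      have h3 := hTail D V E F M A Q T X hC R₂ R₁ s s O hs hs.le hOQ 0 (Nat.zero_le _) 1 hn1
        (fun k _ hk => hno k hk) hp1
      exact Relation.ReflTransGen.trans hq0 h3
    obtain ⟨i, ⟨hin, hiO⟩, hmin⟩ : ∃ i, (i ≤ R₂.n s ∧ R₂.p s i ∈ O) ∧
        ∀ k < i, ¬ (k ≤ R₂.n s ∧ R₂.p s k ∈ O) :=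
      ⟨Nat.find hex, Nat.find_spec hex, fun k hk => Nat.find_min hex hk⟩
    have hi1 : 1 ≤ i := by
      by_contra h
      have : i = 0 := by omega
      subst this
      exact h2 hiO
    obtain ⟨j, rfl⟩ : ∃ j, i = j + 1 := ⟨i - 1, by omega⟩
    have hjO : ∀ k ≤ j, R₂.p s k ∉ O := fun k hk h => hmin k (by omega) ⟨by omega, h⟩
    have hwalk : Rch M O (R₂.p s 0) (R₂.p s j) :=
      rch_walk (fun k => R₂.p s k) j (fun k hk => R₂.walk s hs k (by omega))
        fun k _ hk => hjO k hk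
    have hadj : ∃ u, Ad M (R₂.p s j) u ∧ u ∉ O := by
      rcases Nat.eq_zero_or_pos j with h0 | h0
      · subst h0
        exact ⟨R₂.z s, ad_symm (R₂.start s hs), hout _ hz'⟩
      · obtain ⟨l, rfl⟩ : ∃ l, j = l + 1 := ⟨j - 1, by omega⟩
        exact ⟨R₂.p s l, ad_symm (R₂.walk s hs l (by omega)), hjO l (by omega)⟩
    obtain ⟨u, hu1, hu2⟩ := hadj
    obtain ⟨e, he, hej⟩ := hBdex D V E F M O (R₂.p s j) u (R₂.p s (j + 1)) (hjO j le_rfl) hu1 hu2
      (R₂.walk s hs j (by omega)) hiO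
    refine hHalf D V E F M O (A s) hO.conn hO.ne d hd e he ?_ ?_ ?_
    · rw [hdz, hej]
      exact Relation.ReflTransGen.trans hq0 hwalk
    · rw [hdz]
      exact hz
    · rw [hej]
      exact R₂.out s hs j (by omega)

end Pool.Agent.Helper39.UB
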